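import Pool.Agent.N822.TZ.Stm

/-!
Project TZ (helper822), leaf TR: continuity of translations in measure.
-/

set_option autoImplicit false

open Set Topology MeasureTheory Filter

open scoped ENNReal symmDiff

namespace Pool.Agent.N14.TZ

open Pool.Agent.N822.TZ

theorem t_TR : S_TR := by
  intro E hE
  have h2 : Tendsto (fun k : ℕ => (2 : ℤ_[2]) ^ k) atTop (𝓝 0) := by
    apply tendsto_pow_atTop_nhds_zero_of_norm_lt_one
    exact PadicInt.norm_lt_one_iff_dvd _ |>.2 (dvd_refl _)
  let F : C(ℤ_[2], C(ℤ_[2], ℤ_[2])) :=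
    ContinuousMap.curry ⟨fun p : ℤ_[2] × ℤ_[2] => p.2 + p.1, by fun_prop⟩
  have hF : ∀ w z, F w z = z + w := fun w z => rfl
  have hlim : Tendsto (fun k : ℕ => F ((2 : ℤ_[2]) ^ k)) atTop (𝓝 (F 0)) :=
    (F.continuous.tendsto 0).comp h2
  have hmp : ∀ w, MeasurePreserving (F w) la la := fun w => measurePreserving_add_right la w
  have h := tendsto_measure_symmDiff_preimage_nhds_zero (μ := la) (ν := la) hlim
    (Eventually.of_forall fun k => hmp _) (hmp 0) hE.nullMeasurableSet (measure_ne_top la E)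
  refine tendsto_of_tendsto_of_tendsto_of_le_of_le tendsto_const_nhds h (fun _ => zero_le) ?_
  intro k
  apply measure_mono
  intro z hz
  right
  refine ⟨?_, hz.2⟩
  change F 0 z ∈ E
  rw [hF, add_zero]
  exact hz.1

end Pool.Agent.N14.TZ
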